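import Pool.Agent.P.MP_c4d261_al.Main

/-! For an infinite finitely presented group `H`, the iterated lamplighter groups
`ℤ/2 ≀ (ℤ/2 ≀ ( ⋯ ≀ H))` with different numbers of factors are not quasi-isometric.
The case `(m, n) = (2, 1)` is the negative answer to Q1, the case `(3, 2)` to Q2. -/

set_option autoImplicit false

namespace Pool.Agent.P.MP_c4d261_al.Old.NotQuasiIsometric

open Pool.Agent.P.MP_c4d261_al

theorem result (H : Type) [Group H] [Infinite H] [Group.IsFinitelyPresented H] (m n : ℕ)
    (hmn : m ≠ n) :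
    ¬ QuasiIsometric (iterLamp (GrpCat.of H) m) (iterLamp (GrpCat.of H) n) :=
  not_qi (GrpCat.of H) hmn

end Pool.Agent.P.MP_c4d261_al.Old.NotQuasiIsometric
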